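import Mathlib

set_option autoImplicit false

/-!
Definitions shared by the hand-ins on disjoint representatives of the block orbits of cyclic
designs.
-/

namespace Pool.Agent.Lib.MP_1dd1a8_co

open scoped Pointwise

/-- A cyclic `(v, k, l)`-design: a finite multiset of `k`-subsets of `ZMod v` (the blocks) such
that every pair of distinct points lies in exactly `l` blocks (counted with multiplicity) and such
that the multiplicities are invariant under all translations `B ↦ t +ᵥ B`. -/
structure IsCyclicDesign (v k l : ℕ) (𝓑 : Multiset (Finset (ZMod v))) : Prop where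
  card_block : ∀ B ∈ 𝓑, B.card = k
  pair_count : ∀ x y : ZMod v, x ≠ y → 𝓑.countP (fun B => x ∈ B ∧ y ∈ B) = l
  shift_count : ∀ (t : ZMod v) (B : Finset (ZMod v)), 𝓑.count (t +ᵥ B) = 𝓑.count B

/-- The block orbits of a translation invariant multiset `𝓑` of subsets of `ZMod v`:
a translation orbit `O` gives as many block orbits as the multiplicity of its members in `𝓑`. -/
def BlockOrbit {v : ℕ} (𝓑 : Multiset (Finset (ZMod v))) : Type :=
  Σ O : AddAction.orbitRel.Quotient (ZMod v) (Finset (ZMod v)), Fin (𝓑.count O.out)

/-- There is a choice of one block from each block orbit such that the chosen blocks are pairwise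
disjoint. -/
def HasDisjointReps {v : ℕ} (𝓑 : Multiset (Finset (ZMod v))) : Prop :=
  ∃ f : BlockOrbit 𝓑 → Finset (ZMod v),
    (∀ o, f o ∈ o.1.orbit) ∧ ∀ o o', o ≠ o' → Disjoint (f o) (f o')

end Pool.Agent.Lib.MP_1dd1a8_co
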