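import Mathlib
import Pool.Agent.Lib.MP_1dd1a8_co.Defs

set_option autoImplicit false

namespace Pool.Agent.Lib.MP_1dd1a8_co

open scoped Pointwise
open Finset

section

variable (k p : ℕ) [Fact k.Prime] [Fact p.Prime]

/-- The ring isomorphism of the Chinese remainder theorem. -/
noncomputable def crt (h : k < p) : ZMod (k * p) ≃+* ZMod k × ZMod p :=
  ZMod.chineseRemainder ((Nat.coprime_primes (Fact.out : k.Prime) (Fact.out : p.Prime)).mpr
    (Nat.ne_of_lt h))

instance instNeZeroMul : NeZero (k * p) :=
  ⟨Nat.mul_ne_zero (Fact.out : k.Prime).ne_zero (Fact.out : p.Prime).ne_zero⟩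

variable {k p}

/-- A point of the base block with parameter `x`. -/
noncomputable def pt (h : k < p) (x : ZMod p) (a : ZMod k) : ZMod (k * p) :=
  (crt k p h).symm (a ^ 2, x * (a.val : ZMod p))

/-- The base block with parameter `x`. -/
noncomputable def base (h : k < p) (x : ZMod p) : Finset (ZMod (k * p)) :=
  Finset.univ.image (pt h x)

/-- The coset of the subgroup of order `k` with parameter `y`. -/
noncomputable def coset (h : k < p) (y : ZMod p) : Finset (ZMod (k * p)) :=
  Finset.univ.image fun c : ZMod k => (crt k p h).symm (c, y)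

lemma lift_inj (h : k < p) {a b : ZMod k} (hab : (a.val : ZMod p) = (b.val : ZMod p)) : a = b := by
  have ha := a.val_lt
  have hb := b.val_lt
  have h1 : (a.val : ZMod p).val = (b.val : ZMod p).val := by rw [hab]
  rw [ZMod.val_natCast_of_lt (by omega), ZMod.val_natCast_of_lt (by omega)] at h1
  exact ZMod.val_injective k h1

lemma pt_inj (h : k < p) {x : ZMod p} (hx : x ≠ 0) : Function.Injective (pt (k := k) h x) := by
  intro a b hab
  unfold pt at hab
  have h1 := (crt k p h).symm.injective hab
  have h2 := congrArg Prod.snd h1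
  simp only at h2
  exact lift_inj h (mul_left_cancel₀ hx h2)

lemma card_base (h : k < p) {x : ZMod p} (hx : x ≠ 0) : (base (k := k) h x).card = k := by
  unfold base
  rw [Finset.card_image_of_injective _ (pt_inj h hx), Finset.card_univ, ZMod.card]

lemma card_coset (h : k < p) (y : ZMod p) : (coset (k := k) h y).card = k := by
  unfold coset
  rw [Finset.card_image_of_injective, Finset.card_univ, ZMod.card]
  intro a b hab
  have h1 := (crt k p h).symm.injective hab
  exact congrArg Prod.fst h1

lemma mem_coset (h : k < p) (y : ZMod p) (P : ZMod (k * p)) :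
    P ∈ coset h y ↔ (crt k p h P).2 = y := by
  unfold coset
  simp only [mem_image, mem_univ, true_and]
  constructor
  · rintro ⟨c, rfl⟩
    simp
  · rintro rfl
    exact ⟨(crt k p h P).1, by simp⟩

lemma mem_vadd_base (h : k < p) (t : ZMod (k * p)) (x : ZMod p) (P : ZMod (k * p)) :
    P ∈ t +ᵥ base h x ↔ ∃ a : ZMod k, t + pt h x a = P := by
  rw [Finset.mem_vadd_finset]
  unfold base
  simp only [mem_image, mem_univ, true_and, exists_exists_eq_and, vadd_eq_add]

/-- The index set of the full orbits. -/
abbrev Idx (k p : ℕ) := {x : ZMod p // x ≠ 0} × ZMod (k * p)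

/-- Blocks in the full orbits. -/
noncomputable def fullBlocks (h : k < p) : Multiset (Finset (ZMod (k * p))) :=
  (Finset.univ : Finset (Idx k p)).val.map fun i => i.2 +ᵥ base h i.1.1

/-- Blocks in the short orbit, each once. -/
noncomputable def shortBlocks (h : k < p) : Multiset (Finset (ZMod (k * p))) :=
  (Finset.univ : Finset (ZMod p)).val.map fun y => coset h y

/-- The design. -/
noncomputable def design (h : k < p) : Multiset (Finset (ZMod (k * p))) :=
  fullBlocks h + (k - 1) • shortBlocks h

lemma card_pairs_of_eq (h : k < p) {P Q : ZMod (k * p)} (hPQ : P ≠ Q)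
    (hy : (crt k p h P).2 = (crt k p h Q).2) :
    #{i : Idx k p | P ∈ i.2 +ᵥ base h i.1.1 ∧ Q ∈ i.2 +ᵥ base h i.1.1} = 0 := by
  rw [Finset.card_eq_zero, Finset.filter_eq_empty_iff]
  rintro ⟨⟨x, hx⟩, t⟩ _ ⟨h1, h2⟩
  simp only [mem_vadd_base] at h1 h2
  obtain ⟨a, ha⟩ := h1
  obtain ⟨b, hb⟩ := h2
  apply hPQ
  have : a = b := by
    rw [← ha, ← hb] at hy
    simp only [map_add, pt, RingEquiv.apply_symm_apply, Prod.snd_add, add_right_inj] at hy
    exact lift_inj h (mul_left_cancel₀ hx hy)
  rw [← ha, ← hb, this]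

lemma card_pairs_of_ne (hk : k ≠ 2) (h : k < p) {P Q : ZMod (k * p)}
    (hy : (crt k p h P).2 ≠ (crt k p h Q).2) :
    #{i : Idx k p | P ∈ i.2 +ᵥ base h i.1.1 ∧ Q ∈ i.2 +ᵥ base h i.1.1} = k - 1 := by
  classical
  have h2 : (2 : ZMod k) ≠ 0 := by
    intro h0
    have : ((2 : ℕ) : ZMod k) = 0 := by exact_mod_cast h0
    rw [ZMod.natCast_eq_zero_iff] at this
    exact hk ((Nat.prime_dvd_prime_iff_eq (Fact.out : k.Prime) Nat.prime_two).mp this)
  set c : ZMod k := (crt k p h P).1 - (crt k p h Q).1 with hc
  set y : ZMod p := (crt k p h P).2 - (crt k p h Q).2 with hyd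
  have hy0 : y ≠ 0 := sub_ne_zero.mpr hy
  -- the two residues attached to a nonzero difference `d`
  let A : ZMod k → ZMod k := fun d => (c / d + d) / 2
  let B : ZMod k → ZMod k := fun d => (c / d - d) / 2
  have hAB : ∀ d, A d - B d = d := by
    intro d
    have h3 : (c / d + d) / 2 - (c / d - d) / 2 = d * (2 / 2) := by ring
    simp only [A, B]
    rw [h3, div_self h2, mul_one]
  have hAB2 : ∀ d, d ≠ 0 → (A d) ^ 2 - (B d) ^ 2 = c := by
    intro d hd
    have h1 : (A d) ^ 2 - (B d) ^ 2 = (A d - B d) * (A d + B d) := by ring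
    have h3 : A d + B d = c / d := by
      have h4 : (c / d + d) / 2 + (c / d - d) / 2 = c / d * (2 / 2) := by ring
      simp only [A, B]
      rw [h4, div_self h2, mul_one]
    rw [h1, hAB, h3]
    field_simp
  have hne : ∀ d, d ≠ 0 → ((A d).val : ZMod p) - ((B d).val : ZMod p) ≠ 0 := by
    intro d hd h0
    have := lift_inj h (sub_eq_zero.mp h0)
    apply hd
    rw [← hAB d, this, sub_self]
  let X : {d : ZMod k // d ≠ 0} → {x : ZMod p // x ≠ 0} := fun d =>
    ⟨y / (((A d.1).val : ZMod p) - ((B d.1).val : ZMod p)), div_ne_zero hy0 (hne d.1 d.2)⟩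
  let F : {d : ZMod k // d ≠ 0} → Idx k p := fun d => (X d, P - pt h (X d).1 (A d.1))
  have hF2 : ∀ d : {d : ZMod k // d ≠ 0}, (P - pt h (X d).1 (A d.1)) + pt h (X d).1 (B d.1) = Q := by
    intro d
    apply (crt k p h).injective
    simp only [map_add, map_sub, pt, RingEquiv.apply_symm_apply]
    apply Prod.ext
    · simp only [Prod.fst_add, Prod.fst_sub]
      have := hAB2 d.1 d.2
      rw [hc] at this
      linear_combination -this
    · simp only [Prod.snd_add, Prod.snd_sub]
      have h3 : (X d).1 * (((A d.1).val : ZMod p) - ((B d.1).val : ZMod p)) = y := by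
        simp only [X]
        exact div_mul_cancel₀ _ (hne d.1 d.2)
      rw [hyd] at h3
      linear_combination -h3
  have himg : ({i : Idx k p | P ∈ i.2 +ᵥ base h i.1.1 ∧ Q ∈ i.2 +ᵥ base h i.1.1} : Finset _)
      = Finset.univ.image F := by
    ext ⟨⟨x, hx⟩, t⟩
    simp only [mem_filter, mem_univ, true_and, mem_image, mem_vadd_base]
    constructor
    · rintro ⟨⟨a, ha⟩, ⟨b, hb⟩⟩
      have hac : a ^ 2 - b ^ 2 = c := by
        rw [hc, ← ha, ← hb]
        simp [pt]
      have hay : x * ((a.val : ZMod p) - (b.val : ZMod p)) = y := by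
        rw [hyd, ← ha, ← hb]
        simp [pt, mul_sub]
      have hab : a - b ≠ 0 := by
        intro h0
        rw [sub_eq_zero] at h0
        rw [h0, sub_self, mul_zero] at hay
        exact hy0 hay.symm
      have hsum : c / (a - b) = a + b := by
        rw [div_eq_iff hab, ← hac]
        ring
      have hA : A (a - b) = a := by
        simp only [A]
        rw [hsum]
        field_simp
        ring
      have hB : B (a - b) = b := by
        simp only [B]
        rw [hsum]
        field_simp
        ring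
      refine ⟨⟨a - b, hab⟩, ?_⟩
      have hX : (X ⟨a - b, hab⟩) = ⟨x, hx⟩ := by
        apply Subtype.ext
        simp only [X, hA, hB]
        rw [div_eq_iff, hay]
        have := hne (a - b) hab
        rwa [hA, hB] at this
      simp only [F, Prod.mk.injEq]
      refine ⟨hX, ?_⟩
      rw [hX]
      simp only [hA]
      rw [← ha]
      ring
    · rintro ⟨d, hd⟩
      simp only [F, Prod.mk.injEq] at hd
      obtain ⟨hd1, hd2⟩ := hd
      have hd3 : (X d).1 = x := by rw [hd1]
      rw [← hd2, ← hd3]
      exact ⟨⟨A d.1, by ring⟩, ⟨B d.1, hF2 d⟩⟩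
  rw [himg, Finset.card_image_of_injective, Finset.card_univ]
  · rw [Fintype.card_subtype_compl, ZMod.card, Fintype.card_subtype_eq]
  · intro d d' hdd
    simp only [F, Prod.mk.injEq] at hdd
    obtain ⟨h1, h3⟩ := hdd
    have h4 : pt h (X d).1 (A d.1) = pt h (X d).1 (A d'.1) := by
      rw [← h1] at h3
      exact sub_right_injective h3
    have h5 : A d.1 = A d'.1 := pt_inj h (X d).2 h4
    have h6 : pt h (X d).1 (B d.1) = pt h (X d).1 (B d'.1) := by
      have e1 := hF2 d
      have e2 := hF2 d'
      rw [← h1, ← h5] at e2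
      rw [← e2] at e1
      exact add_left_cancel e1
    have h7 : B d.1 = B d'.1 := pt_inj h (X d).2 h6
    apply Subtype.ext
    rw [← hAB d.1, ← hAB d'.1, h5, h7]

end

end Pool.Agent.Lib.MP_1dd1a8_co
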